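import Pool.Agent.R60.Steiner.Basic

set_option autoImplicit false
open Finset

namespace Pool.Agent.R60.Steiner

/-- two blocks with `r` common points are equal -/
theorem eq_of_subset {n q r : ℕ} {B : Finset (Finset (Fin n))} (hB : IsSteiner n q r B)
    {s b c : Finset (Fin n)} (hs : s.card = r) (hb : b ∈ B) (hc : c ∈ B) (hsb : s ⊆ b)
    (hsc : s ⊆ c) : b = c :=
  (hB.2 s hs).unique ⟨hb, hsb⟩ ⟨hc, hsc⟩

theorem exists_block {n q r : ℕ} {B : Finset (Finset (Fin n))} (hB : IsSteiner n q r B)
    {s : Finset (Fin n)} (hs : s.card = r) : ∃ b ∈ B, s ⊆ b := by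
  obtain ⟨b, ⟨h1, h2⟩, _⟩ := hB.2 s hs
  exact ⟨b, h1, h2⟩

/-- Tits' inequality. -/
theorem tits {n q r : ℕ} {B : Finset (Finset (Fin n))} (hB : IsSteiner n q r B)
    (hr : 1 ≤ r) (hrq : r ≤ q) (hqn : q < n) : (r + 1) * (q - r + 1) ≤ n := by
  classical
  obtain ⟨T0, _, hT0⟩ := exists_subset_card_eq (s := (univ : Finset (Fin n))) (n := r)
      (by rw [card_univ, Fintype.card_fin]; omega)
  obtain ⟨b0, hb0, hT0b⟩ := exists_block hB hT0
  have hb0c := hB.1 b0 hb0
  obtain ⟨x, hx⟩ : ∃ x, x ∉ b0 := by
    by_contra hc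
    push Not at hc
    have : b0 = univ := by ext y; simp [hc y]
    rw [this, card_univ, Fintype.card_fin] at hb0c
    omega
  have hxT : x ∉ T0 := fun h => hx (hT0b h)
  set S := insert x T0 with hS
  have hSc : S.card = r + 1 := by rw [hS, card_insert_of_notMem hxT, hT0]
  have hnot : ∀ b ∈ B, ¬ S ⊆ b := by
    intro b hb hSb
    have : b = b0 := eq_of_subset hB hT0 hb hb0 ((subset_insert _ _).trans hSb) hT0b
    exact hx (this ▸ hSb (mem_insert_self _ _))
  have hex : ∀ y ∈ S, ∃ b ∈ B, S.erase y ⊆ b := by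
    intro y hy
    exact exists_block hB (by rw [card_erase_of_mem hy, hSc]; omega)
  choose! f hf using hex
  have hy : ∀ y ∈ S, y ∉ f y := by
    intro y hy hyf
    apply hnot (f y) (hf y hy).1
    rw [← insert_erase hy]
    exact insert_subset hyf (hf y hy).2
  have hinter : ∀ y ∈ S, f y ∩ S = S.erase y := by
    intro y hyS
    ext z
    rw [mem_inter, mem_erase]
    constructor
    · rintro ⟨h1, h2⟩
      refine ⟨?_, h2⟩
      rintro rfl
      exact hy z h2 h1
    · rintro ⟨h1, h2⟩
      exact ⟨(hf y hyS).2 (mem_erase.2 ⟨h1, h2⟩), h2⟩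
  have hcard : ∀ y ∈ S, (f y \ S).card = q - r := by
    intro y hyS
    have h1 := card_sdiff_add_card_inter (f y) S
    rw [hinter y hyS, card_erase_of_mem hyS, hSc, hB.1 _ (hf y hyS).1] at h1
    omega
  have hdisj : (S : Set (Fin n)).PairwiseDisjoint (fun y => f y \ S) := by
    intro y hyS y' hyS' hne
    simp only [Function.onFun]
    rw [disjoint_left]
    intro z hz hz'
    rw [mem_sdiff] at hz hz'
    have hyS1 : y ∈ S := hyS
    have hyS2 : y' ∈ S := hyS'
    have hc : (insert z ((S.erase y).erase y')).card = r := by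
      rw [card_insert_of_notMem, card_erase_of_mem, card_erase_of_mem hyS1, hSc]
      · omega
      · exact mem_erase.2 ⟨hne.symm, hyS2⟩
      · intro h
        exact hz.2 (mem_of_mem_erase (mem_of_mem_erase h))
    have heq : f y = f y' := by
      apply eq_of_subset hB hc (hf y hyS1).1 (hf y' hyS2).1
      · apply insert_subset hz.1
        exact (erase_subset _ _).trans (hf y hyS1).2
      · apply insert_subset hz'.1
        rw [erase_right_comm]
        exact (erase_subset _ _).trans (hf y' hyS2).2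
    apply hy y hyS1
    rw [heq]
    exact (hf y' hyS2).2 (mem_erase.2 ⟨hne, hyS1⟩)
  have hU : (S ∪ S.biUnion (fun y => f y \ S)).card = (r + 1) + (r + 1) * (q - r) := by
    rw [card_union_of_disjoint, card_biUnion hdisj, sum_congr rfl hcard, sum_const, hSc,
      smul_eq_mul]
    rw [disjoint_left]
    intro z hz hz'
    rw [mem_biUnion] at hz'
    obtain ⟨y, _, hy2⟩ := hz'
    exact (mem_sdiff.1 hy2).2 hz
  have hle : (S ∪ S.biUnion (fun y => f y \ S)).card ≤ n := by
    calc _ ≤ (univ : Finset (Fin n)).card := card_le_card (subset_univ _)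
      _ = n := by rw [card_univ, Fintype.card_fin]
  rw [hU] at hle
  calc (r + 1) * (q - r + 1) = (r + 1) + (r + 1) * (q - r) := by ring
    _ ≤ n := hle

/-- The bound `n - r + 1 ≥ (q - r + 1)(q - r + 2)`. -/
theorem fisher {n q r : ℕ} {B : Finset (Finset (Fin n))} (hB : IsSteiner n q r B)
    (hr : 2 ≤ r) (hrq : r ≤ q) (hqn : q < n) : (q - r + 1) * (q - r + 2) + (r - 1) ≤ n := by
  classical
  obtain ⟨T0, _, hT0⟩ := exists_subset_card_eq (s := (univ : Finset (Fin n))) (n := r)
      (by rw [card_univ, Fintype.card_fin]; omega)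
  obtain ⟨b0, hb0, hT0b⟩ := exists_block hB hT0
  have hb0c := hB.1 b0 hb0
  obtain ⟨x, hx⟩ : ∃ x, x ∉ b0 := by
    by_contra hc
    push Not at hc
    have : b0 = univ := by ext y; simp [hc y]
    rw [this, card_univ, Fintype.card_fin] at hb0c
    omega
  obtain ⟨Z, hZb, hZc⟩ := exists_subset_card_eq (s := b0) (n := r - 2) (by omega)
  have hxZ : x ∉ Z := fun h => hx (hZb h)
  have hex : ∀ y ∈ b0 \ Z, ∃ b ∈ B, insert y (insert x Z) ⊆ b := by
    intro y hy
    rw [mem_sdiff] at hy
    apply exists_block hB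
    rw [card_insert_of_notMem, card_insert_of_notMem hxZ, hZc]
    · omega
    · rw [mem_insert, not_or]
      exact ⟨fun h => hx (h ▸ hy.1), hy.2⟩
  choose! f hf using hex
  have hcard : ∀ y ∈ b0 \ Z, (f y \ insert x Z).card = q - r + 1 := by
    intro y hy
    rw [card_sdiff_of_subset ((subset_insert _ _).trans (hf y hy).2), hB.1 _ (hf y hy).1,
      card_insert_of_notMem hxZ, hZc]
    omega
  have hdisj : ((b0 \ Z : Finset (Fin n)) : Set (Fin n)).PairwiseDisjoint
      (fun y => f y \ insert x Z) := by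
    intro y hy y' hy' hne
    simp only [Function.onFun]
    rw [disjoint_left]
    intro z hz hz'
    rw [mem_sdiff] at hz hz'
    have hy1 : y ∈ b0 \ Z := hy
    have hy2 : y' ∈ b0 \ Z := hy'
    have hc : (insert z (insert x Z)).card = r := by
      rw [card_insert_of_notMem hz.2, card_insert_of_notMem hxZ, hZc]; omega
    have heq : f y = f y' := by
      apply eq_of_subset hB hc (hf y hy1).1 (hf y' hy2).1
      · exact insert_subset hz.1 ((subset_insert _ _).trans (hf y hy1).2)
      · exact insert_subset hz'.1 ((subset_insert _ _).trans (hf y' hy2).2)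
    rw [mem_sdiff] at hy1 hy2
    have hc2 : (insert y (insert y' Z)).card = r := by
      rw [card_insert_of_notMem, card_insert_of_notMem hy2.2, hZc]
      · omega
      · rw [mem_insert, not_or]; exact ⟨hne, hy1.2⟩
    have h1 : insert y (insert y' Z) ⊆ f y := by
      apply insert_subset ((hf y hy).2 (mem_insert_self _ _))
      apply insert_subset
      · rw [heq]; exact (hf y' hy').2 (mem_insert_self _ _)
      · exact ((subset_insert _ _).trans (subset_insert _ _)).trans (hf y hy).2
    have h2 : insert y (insert y' Z) ⊆ b0 := by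
      apply insert_subset hy1.1
      exact insert_subset hy2.1 hZb
    have h3 : f y = b0 := eq_of_subset hB hc2 (hf y hy).1 hb0 h1 h2
    apply hx
    rw [← h3]
    exact (hf y hy).2 (mem_insert_of_mem (mem_insert_self _ _))
  have hnum : (b0 \ Z).card = q - r + 2 := by
    rw [card_sdiff_of_subset hZb, hb0c, hZc]; omega
  have hU : (insert x Z ∪ (b0 \ Z).biUnion (fun y => f y \ insert x Z)).card
      = (r - 1) + (q - r + 2) * (q - r + 1) := by
    rw [card_union_of_disjoint, card_biUnion hdisj, sum_congr rfl hcard, sum_const, hnum,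
      smul_eq_mul, card_insert_of_notMem hxZ, hZc]
    · omega
    rw [disjoint_left]
    intro z hz hz'
    rw [mem_biUnion] at hz'
    obtain ⟨y, _, hy2⟩ := hz'
    exact (mem_sdiff.1 hy2).2 hz
  have hle : (insert x Z ∪ (b0 \ Z).biUnion (fun y => f y \ insert x Z)).card ≤ n := by
    calc _ ≤ (univ : Finset (Fin n)).card := card_le_card (subset_univ _)
      _ = n := by rw [card_univ, Fintype.card_fin]
  rw [hU] at hle
  calc (q - r + 1) * (q - r + 2) + (r - 1) = (r - 1) + (q - r + 2) * (q - r + 1) := by ring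
    _ ≤ n := hle

end Pool.Agent.R60.Steiner
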