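import Pool.Agent.R60.Steiner.Bounds

set_option autoImplicit false
open Finset

namespace Pool.Agent.R60.Steiner

/-- residues: no carry means that the residue of the sum is the sum of the residues -/
theorem mod_of_noCarry {a b P : ℕ} (h : a % P + b % P < P) : (a + b) % P = a % P + b % P := by
  rw [Nat.add_mod, Nat.mod_eq_of_lt h]

/-- Step 1: in the case of equality in Tits' bound, `r + 1` divides `a (a - 1)`. -/
theorem step1 {a r : ℕ} (h : NoCarry a (r * a + 1) r) :
    r + 1 ∣ a * (a - 1) := by
  rw [Nat.dvd_iff_prime_pow_dvd_dvd]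
  intro p k hp hk
  rcases Nat.eq_zero_or_pos k with rfl | hkpos
  · simp
  set P := p ^ k with hP
  have hP2 : 2 ≤ P := by
    calc 2 ≤ p := hp.two_le
      _ = p ^ 1 := (pow_one p).symm
      _ ≤ p ^ k := Nat.pow_le_pow_right hp.pos hkpos
  have hPle : P ≤ r + 1 := Nat.le_of_dvd (by omega) hk
  rcases Nat.eq_zero_or_pos (a % P) with h0 | hpos
  · exact (Nat.dvd_of_mod_eq_zero h0).mul_right _
  have hlt : a % P < P := Nat.mod_lt _ (by omega)
  have hadd : P * (a / P) + a % P = a := Nat.div_add_mod a P
  have hmul : P * (a / P + 1) = P * (a / P) + P := by ring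
  have hno := h p k hp hkpos (by rw [← hP, hmul]; omega)
  rw [← hP] at hno
  have hm := mod_of_noCarry hno
  obtain ⟨c, hc⟩ := hk
  have e : a + (r * a + 1) = P * (c * a) + 1 := by
    have : P * (c * a) = (r + 1) * a := by rw [hc]; ring
    rw [this]; ring
  rw [e, Nat.mul_add_mod, Nat.mod_eq_of_lt (by omega)] at hm
  have h1 : a % P = 1 := by omega
  have h2 : P ∣ a - 1 := by
    rw [← h1]
    exact Nat.dvd_sub_mod a
  exact h2.mul_left _

theorem not_noCarry {a b r : ℕ} (p e : ℕ) (hp : p.Prime) (he : 0 < e)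
    (h1 : p ^ e * (a / p ^ e + 1) ≤ a + r) (h2 : p ^ e ≤ a % p ^ e + b % p ^ e) :
    ¬ NoCarry a b r := fun h => absurd (h p e hp he h1) (by omega)

/-- The arithmetic part of the classification. -/
theorem arith {a r : ℕ} (ha : 1 ≤ a) (hr : 2 ≤ r) (hred : Red a (r * a + 1) r) :
    (a = 1 ∧ (r + 2).Prime) ∨ (a = 3 ∧ r = 5) := by
  have hnc := noCarry_of_red hred
  rcases eq_or_lt_of_le ha with rfl | ha2
  · left
    refine ⟨rfl, ?_⟩
    by_contra hnp
    rw [Nat.not_prime_iff_minFac_lt (by omega)] at hnp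
    have hp : (r + 2).minFac.Prime := Nat.minFac_prime (by omega)
    set p := (r + 2).minFac with hpdef
    have hp2 := hp.two_le
    have hpd : p ∣ r + 2 := Nat.minFac_dvd _
    have := hnc p 1 hp one_pos (by
      rw [pow_one, Nat.div_eq_of_lt (by omega)]; omega)
    rw [pow_one] at this
    have hm := mod_of_noCarry this
    have e : 1 + (r * 1 + 1) = r + 2 := by ring
    rw [e, Nat.mod_eq_zero_of_dvd hpd, Nat.mod_eq_of_lt (by omega)] at hm
    omega
  right
  have hd1 := step1 hnc
  -- `a + 1` divides `r a + 1`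
  have hd2 : a + 1 ∣ r * a + 1 := by
    have := hred 1 (by omega)
    rwa [Nat.choose_one_right, Nat.choose_one_right] at this
  -- write `r = 1 + c (a + 1)`
  obtain ⟨c, hc⟩ : ∃ c, r = 1 + c * (a + 1) := by
    have h3 : a + 1 ∣ r - 1 := by
      have h4 : a + 1 ∣ r * (a + 1) := dvd_mul_left _ _
      have h5 : r * (a + 1) = (r * a + 1) + (r - 1) := by
        have : r * (a + 1) = r * a + r := by ring
        omega
      rw [h5] at h4
      exact (Nat.dvd_add_right hd2).1 h4
    obtain ⟨c, hc⟩ := h3
    exact ⟨c, by rw [mul_comm]; omega⟩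
  have hc1 : 1 ≤ c := by
    rcases Nat.eq_zero_or_pos c with rfl | h
    · omega
    · exact h
  obtain ⟨k, hk⟩ := hd1
  have hk' : (a : ℤ) * (a - 1) = (r + 1) * k := by
    have : ((a * (a - 1) : ℕ) : ℤ) = (((r + 1) * k : ℕ) : ℤ) := by rw [hk]
    push_cast [Nat.cast_sub (by omega : 1 ≤ a)] at this
    exact this
  have hcZ : (r : ℤ) = 1 + c * (a + 1) := by rw [hc]; push_cast; ring
  have haZ : (2 : ℤ) ≤ a := by exact_mod_cast ha2
  have hc1Z : (1 : ℤ) ≤ c := by exact_mod_cast hc1
  have hkpos : (1 : ℤ) ≤ k := by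
    have : k ≠ 0 := by
      rintro rfl
      have : a * (a - 1) = 0 := by rw [hk]; ring
      rcases Nat.mul_eq_zero.1 this with h | h <;> omega
    exact_mod_cast Nat.pos_of_ne_zero this
  obtain ⟨d, hd⟩ : ∃ d : ℤ, d = a - 2 - c * k := ⟨_, rfl⟩
  have key : ((a : ℤ) + 1) * d = 2 * (k - 1) := by
    rw [hcZ] at hk'
    rw [hd]
    linear_combination hk'
  have hd0 : 0 ≤ d := by
    by_contra hneg
    push Not at hneg
    have : ((a : ℤ) + 1) * d < 0 := by nlinarith
    linarith
  have hck : (k : ℤ) ≤ c * k := by nlinarith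
  have hd2' : d < 2 := by
    by_contra hge
    push Not at hge
    have h1 : (k : ℤ) ≤ a - 4 := by linarith
    nlinarith
  rcases (by omega : d = 0 ∨ d = 1) with rfl | rfl
  · -- `k = 1`, `r + 1 = a (a - 1)`
    have hk1 : (k : ℤ) = 1 := by linarith
    have hcv : (c : ℤ) = a - 2 := by rw [hk1] at hd; linarith
    have hrv : (r : ℤ) = a ^ 2 - a - 1 := by rw [hcZ, hcv]; ring
    have hd3 := hred 2 hr
    have hd4 : (a + 1) * (a + 2) ∣ (r * a + 1) * (r * a) := by
      have e1 : (a + 2).choose 2 * 2 = (a + 1) * (a + 2) := by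
        rw [Nat.choose_two_right]
        have : (a + 2 - 1) = a + 1 := by omega
        rw [this, Nat.div_mul_cancel, mul_comm]
        have := Nat.even_mul_succ_self (a + 1)
        rw [mul_comm]
        exact this.two_dvd
      have e2 : (r * a + 1).choose 2 * 2 = (r * a + 1) * (r * a) := by
        rw [Nat.choose_two_right]
        have : (r * a + 1 - 1) = r * a := by omega
        rw [this, Nat.div_mul_cancel]
        have := Nat.even_mul_succ_self (r * a)
        rw [mul_comm]
        exact this.two_dvd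
      rw [← e1, ← e2]
      exact Nat.mul_dvd_mul_right hd3 2
    obtain ⟨u, hu⟩ := hd4
    have huZ : ((r : ℤ) * a + 1) * (r * a) = (a + 1) * (a + 2) * u := by exact_mod_cast hu
    rw [hrv] at huZ
    have h90 : ((a : ℤ) + 2) ∣ 90 := by
      have h1 : ((a : ℤ) + 1) * ((a + 2) * u) = (a + 1) * ((a - 1) ^ 2 * a * (a ^ 2 - a - 1)) := by
        linear_combination -huZ
      have h2 : ((a : ℤ) + 2) * u = (a - 1) ^ 2 * a * (a ^ 2 - a - 1) :=
        mul_left_cancel₀ (by positivity) h1
      refine ⟨(a : ℤ) ^ 4 - 5 * a ^ 3 + 12 * a ^ 2 - 23 * a + 45 - u, ?_⟩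
      linear_combination h2
    have h90' : a + 2 ∣ 90 := by exact_mod_cast h90
    have hle : a + 2 ≤ 90 := Nat.le_of_dvd (by norm_num) h90'
    have hcases : a = 3 ∨ a = 4 ∨ a = 7 ∨ a = 8 ∨ a = 13 ∨ a = 16 ∨ a = 28 ∨ a = 43 ∨ a = 88 := by
      have h2 : 2 ≤ a := ha2
      have h88 : a ≤ 88 := by omega
      clear * - h2 h88 h90'
      interval_cases a <;> omega
    have hrN : r + a + 1 = a ^ 2 := by
      have : ((r + a + 1 : ℕ) : ℤ) = ((a ^ 2 : ℕ) : ℤ) := by push_cast; rw [hrv]; ring
      exact_mod_cast this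
    rcases hcases with h | h | h | h | h | h | h | h | h
    · subst h; exact ⟨rfl, by omega⟩
    · subst h
      obtain rfl : r = 11 := by omega
      exact absurd hnc (not_noCarry 7 1 (by norm_num) one_pos (by norm_num) (by norm_num))
    · subst h
      obtain rfl : r = 41 := by omega
      exact absurd hnc (not_noCarry 5 1 (by norm_num) one_pos (by norm_num) (by norm_num))
    · subst h
      obtain rfl : r = 55 := by omega
      exact absurd hnc (not_noCarry 13 1 (by norm_num) one_pos (by norm_num) (by norm_num))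
    · subst h
      obtain rfl : r = 155 := by omega
      exact absurd hnc (not_noCarry 17 1 (by norm_num) one_pos (by norm_num) (by norm_num))
    · subst h
      obtain rfl : r = 239 := by omega
      exact absurd hnc (not_noCarry 19 1 (by norm_num) one_pos (by norm_num) (by norm_num))
    · subst h
      obtain rfl : r = 755 := by omega
      exact absurd hnc (not_noCarry 31 1 (by norm_num) one_pos (by norm_num) (by norm_num))
    · subst h
      obtain rfl : r = 1805 := by omega
      exact absurd hnc (not_noCarry 47 1 (by norm_num) one_pos (by norm_num) (by norm_num))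
    · subst h
      obtain rfl : r = 7655 := by omega
      exact absurd hnc (not_noCarry 7 1 (by norm_num) one_pos (by norm_num) (by norm_num))
  · -- `d = 1`: `a = 2 k - 3`, `c k = a - 3`
    exfalso
    have ha' : (a : ℤ) = 2 * k - 3 := by linarith
    have hck' : (c : ℤ) * k = 2 * k - 6 := by linarith
    have hc2 : (c : ℤ) < 2 := by
      by_contra hge
      push Not at hge
      nlinarith
    have hc3 : (c : ℤ) = 1 := by linarith
    have hk6 : (k : ℤ) = 6 := by rw [hc3] at hck'; linarith
    have ha9 : a = 9 := by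
      have : (a : ℤ) = 9 := by rw [ha', hk6]; norm_num
      exact_mod_cast this
    have hc4 : c = 1 := by exact_mod_cast hc3
    subst ha9
    subst hc4
    obtain rfl : r = 11 := by omega
    exact absurd hnc (not_noCarry 13 1 (by norm_num) one_pos (by norm_num) (by norm_num))

end Pool.Agent.R60.Steiner
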