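import Mathlib

/-!
# Steiner systems: the divisibility conditions in terms of prime powers
-/

set_option autoImplicit false
open Finset

namespace Pool.Agent.R60.Steiner

/-- `B` is a Steiner system `S(n, q, r)` on the points `Fin n`: its members (blocks) have `q`
elements, and each set of `r` points lies in exactly one block. -/
def IsSteiner (n q r : ℕ) (B : Finset (Finset (Fin n))) : Prop :=
  (∀ b ∈ B, b.card = q) ∧ ∀ s : Finset (Fin n), s.card = r → ∃! b, b ∈ B ∧ s ⊆ b

/-- The number of blocks containing a set `I` of `i ≤ r` points. -/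
theorem count_blocks {n q r i : ℕ} {B : Finset (Finset (Fin n))} (hB : IsSteiner n q r B)
    (hir : i ≤ r) {I : Finset (Fin n)} (hI : I.card = i) :
    (B.filter fun b => I ⊆ b).card * (q - i).choose (r - i) = (n - i).choose (r - i) := by
  classical
  have h := sum_card_bipartiteAbove_eq_sum_card_bipartiteBelow
    (s := B.filter fun b => I ⊆ b) (t := (univ \ I).powersetCard (r - i))
    (r := fun b s => s ⊆ b)
  have h1 : ∀ b ∈ B.filter (fun b => I ⊆ b),
      (bipartiteAbove (fun b s => s ⊆ b) ((univ \ I).powersetCard (r - i)) b).card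
        = (q - i).choose (r - i) := by
    intro b hb
    rw [mem_filter] at hb
    have : bipartiteAbove (fun b s => s ⊆ b) ((univ \ I).powersetCard (r - i)) b
        = (b \ I).powersetCard (r - i) := by
      ext s
      simp only [mem_bipartiteAbove, mem_powersetCard]
      constructor
      · rintro ⟨⟨h1, h2⟩, h3⟩
        refine ⟨fun x hx => ?_, h2⟩
        have := h1 hx
        simp only [mem_sdiff, mem_univ, true_and] at this ⊢
        exact ⟨h3 hx, this⟩
      · rintro ⟨h1, h2⟩
        refine ⟨⟨fun x hx => ?_, h2⟩, fun x hx => ?_⟩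
        · have := h1 hx
          simp only [mem_sdiff, mem_univ, true_and] at this ⊢
          exact this.2
        · exact (mem_sdiff.1 (h1 hx)).1
    rw [this, card_powersetCard, card_sdiff_of_subset hb.2, hB.1 b hb.1, hI]
  have h2 : ∀ s ∈ (univ \ I).powersetCard (r - i),
      (bipartiteBelow (fun b s => s ⊆ b) (B.filter fun b => I ⊆ b) s).card = 1 := by
    intro s hs
    rw [mem_powersetCard] at hs
    have hd : Disjoint I s := by
      rw [disjoint_left]
      intro x hx hxs
      have := hs.1 hxs
      simp only [mem_sdiff, mem_univ, true_and] at this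
      exact this hx
    have hc : (I ∪ s).card = r := by
      rw [card_union_of_disjoint hd, hI, hs.2]; omega
    obtain ⟨b, ⟨hb1, hb2⟩, hb3⟩ := hB.2 _ hc
    rw [card_eq_one]
    refine ⟨b, ?_⟩
    ext c
    simp only [mem_bipartiteBelow, mem_filter, mem_singleton]
    constructor
    · rintro ⟨⟨h1, h2⟩, h3⟩
      exact hb3 c ⟨h1, union_subset h2 h3⟩
    · rintro rfl
      exact ⟨⟨hb1, subset_union_left.trans hb2⟩, subset_union_right.trans hb2⟩
  rw [sum_congr rfl h1, sum_congr rfl h2] at h
  simp only [sum_const, smul_eq_mul, mul_one, card_powersetCard] at h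
  rw [h, card_sdiff_of_subset (subset_univ _), card_univ, Fintype.card_fin, hI]

/-- The divisibility condition (D): for each `i < r` the number `C(n-i, r-i)` is a multiple of
`C(q-i, r-i)`. -/
def DivCond (n q r : ℕ) : Prop := ∀ i < r, (q - i).choose (r - i) ∣ (n - i).choose (r - i)

theorem divCond_of_isSteiner {n q r : ℕ} (hrn : r ≤ n) {B : Finset (Finset (Fin n))}
    (hB : IsSteiner n q r B) : DivCond n q r := by
  intro i hi
  obtain ⟨I, hI⟩ : ∃ I : Finset (Fin n), I.card = i := by
    obtain ⟨I, _, hI⟩ := exists_subset_card_eq (s := (univ : Finset (Fin n))) (n := i)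
      (by rw [card_univ, Fintype.card_fin]; omega)
    exact ⟨I, hI⟩
  have := count_blocks hB hi.le hI
  exact Dvd.intro_left _ this

/-- First reformulation: with `a = q - r`, `b = n - q`. -/
def Red (a b r : ℕ) : Prop := ∀ t ≤ r, (a + t).choose t ∣ b.choose t

theorem base_mul {a b r : ℕ} (h : ∀ t ≤ r, (a + t).choose t ∣ (a + b + t).choose t) :
    ∀ t ≤ r, (a + b).choose a ∣ (a + b + t).choose (a + t) := by
  intro t ht
  obtain ⟨k, hk⟩ := h t ht
  have h1 := Nat.choose_mul (n := a + b + t) (k := a + t) (s := t) (by omega)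
  have h2 : a + b + t - t = a + b := by omega
  have h3 : a + t - t = a := by omega
  rw [h2, h3, hk] at h1
  have hp : 0 < (a + t).choose t := Nat.choose_pos (by omega)
  refine ⟨k, ?_⟩
  have : (a + t).choose t * (a + b + t).choose (a + t) = (a + t).choose t * ((a + b).choose a * k) := by
    rw [mul_comm, h1]; ring
  exact Nat.eq_of_mul_eq_mul_left hp this

theorem down {a b r : ℕ} (h : ∀ t ≤ r, (a + b).choose a ∣ (a + b + t).choose (a + t)) :
    ∀ d s, s + d ≤ r → (a + b).choose a ∣ (a + b + s).choose (a + (s + d)) := by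
  intro d
  induction d with
  | zero => intro s hs; exact h s (by omega)
  | succ d ih =>
    intro s hs
    have h1 := ih (s + 1) (by omega)
    have h2 := ih s (by omega)
    have h3 : (a + b + (s + 1)).choose (a + (s + 1 + d))
        = (a + b + s).choose (a + (s + d)) + (a + b + s).choose (a + (s + (d + 1))) := by
      have : a + (s + 1 + d) = (a + (s + d)) + 1 := by omega
      have h' : a + (s + (d + 1)) = (a + (s + d)) + 1 := by omega
      rw [this, h', ← Nat.choose_succ_succ]; rfl
    rw [h3] at h1
    exact (Nat.dvd_add_right h2).1 h1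

theorem red_of_base {a b r : ℕ} (h : ∀ t ≤ r, (a + t).choose t ∣ (a + b + t).choose t) :
    Red a b r := by
  intro t ht
  have h0 := down (base_mul h) t 0 (by omega)
  rw [add_zero, zero_add] at h0
  obtain ⟨k, hk⟩ := h0
  have h1 := Nat.choose_mul (n := a + b) (k := a + t) (s := a) (by omega)
  have h2 : a + b - a = b := by omega
  have h3 : a + t - a = t := by omega
  rw [h2, h3, hk] at h1
  have hp : 0 < (a + b).choose a := Nat.choose_pos (by omega)
  have h4 : (a + t).choose a = (a + t).choose t := Nat.choose_symm_add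
  refine ⟨k, ?_⟩
  have : (a + b).choose a * b.choose t = (a + b).choose a * ((a + t).choose t * k) := by
    rw [← h1, ← h4]; ring
  exact Nat.eq_of_mul_eq_mul_left hp this

theorem up {a b r : ℕ} (h : ∀ t ≤ r, (a + b).choose a ∣ (a + b).choose (a + t)) :
    ∀ s t, s ≤ t → t ≤ r → (a + b).choose a ∣ (a + b + s).choose (a + t) := by
  intro s
  induction s with
  | zero => intro t _ ht; exact h t ht
  | succ s ih =>
    intro t hst ht
    obtain ⟨u, rfl⟩ : ∃ u, t = u + 1 := ⟨t - 1, by omega⟩
    have h1 := ih u (by omega) (by omega)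
    have h2 := ih (u + 1) (by omega) (by omega)
    have h3 : (a + b + (s + 1)).choose (a + (u + 1))
        = (a + b + s).choose (a + u) + (a + b + s).choose (a + (u + 1)) := by
      have : a + (u + 1) = (a + u) + 1 := by omega
      rw [this, ← Nat.choose_succ_succ]; rfl
    rw [h3]
    exact dvd_add h1 h2

theorem base_of_red {a b r : ℕ} (h : Red a b r) :
    ∀ t ≤ r, (a + t).choose t ∣ (a + b + t).choose t := by
  have h0 : ∀ t ≤ r, (a + b).choose a ∣ (a + b).choose (a + t) := by
    intro t ht
    obtain ⟨k, hk⟩ := h t ht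
    have h1 := Nat.choose_mul (n := a + b) (k := a + t) (s := a) (by omega)
    have h2 : a + b - a = b := by omega
    have h3 : a + t - a = t := by omega
    have h4 : (a + t).choose a = (a + t).choose t := Nat.choose_symm_add
    rw [h2, h3, h4, hk] at h1
    have hp : 0 < (a + t).choose t := Nat.choose_pos (by omega)
    refine ⟨k, ?_⟩
    have : (a + t).choose t * (a + b).choose (a + t)
        = (a + t).choose t * ((a + b).choose a * k) := by
      rw [mul_comm, h1]; ring
    exact Nat.eq_of_mul_eq_mul_left hp this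
  intro t ht
  obtain ⟨k, hk⟩ := up h0 t t le_rfl ht
  have h1 := Nat.choose_mul (n := a + b + t) (k := a + t) (s := t) (by omega)
  have h2 : a + b + t - t = a + b := by omega
  have h3 : a + t - t = a := by omega
  rw [h2, h3, hk] at h1
  have hp : 0 < (a + b).choose a := Nat.choose_pos (by omega)
  refine ⟨k, ?_⟩
  have : (a + b).choose a * (a + b + t).choose t = (a + b).choose a * ((a + t).choose t * k) := by
    rw [mul_comm, ← h1]; ring
  exact Nat.eq_of_mul_eq_mul_left hp this

theorem divCond_iff_base {n q r : ℕ} (hrq : r ≤ q) (hqn : q ≤ n) :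
    DivCond n q r ↔ ∀ t ≤ r, (q - r + t).choose t ∣ (q - r + (n - q) + t).choose t := by
  constructor
  · intro h t ht
    rcases Nat.eq_zero_or_pos t with rfl | hpos
    · simp
    · have := h (r - t) (by omega)
      have e1 : q - (r - t) = q - r + t := by omega
      have e2 : n - (r - t) = q - r + (n - q) + t := by omega
      have e3 : r - (r - t) = t := by omega
      rwa [e1, e2, e3] at this
  · intro h i hi
    have := h (r - i) (by omega)
    have e1 : q - i = q - r + (r - i) := by omega
    have e2 : n - i = q - r + (n - q) + (r - i) := by omega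
    rw [e1, e2]
    exact this

theorem divCond_iff_red {n q r : ℕ} (hrq : r ≤ q) (hqn : q ≤ n) :
    DivCond n q r ↔ Red (q - r) (n - q) r := by
  rw [divCond_iff_base hrq hqn]
  exact ⟨red_of_base, base_of_red⟩

/-- No carry at the prime powers with a multiple in `(a, a + r]`. -/
def NoCarry (a b r : ℕ) : Prop :=
  ∀ p e : ℕ, p.Prime → 0 < e → p ^ e * (a / p ^ e + 1) ≤ a + r → a % p ^ e + b % p ^ e < p ^ e

theorem noCarry_of_red {a b r : ℕ} (h : Red a b r) : NoCarry a b r := by
  intro p e hp he hle
  by_contra hcon
  push Not at hcon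
  set P := p ^ e with hP
  have hPpos : 0 < P := pow_pos hp.pos e
  have hαlt : a % P < P := Nat.mod_lt _ hPpos
  have hβlt : b % P < P := Nat.mod_lt _ hPpos
  have hadd : P * (a / P) + a % P = a := Nat.div_add_mod a P
  have hbdd : P * (b / P) + b % P = b := Nat.div_add_mod b P
  have hmulsucc : P * (a / P + 1) = P * (a / P) + P := by ring
  set j := P - a % P with hj
  have hjpos : 0 < j := by omega
  have hαpos : 0 < a % P := by omega
  have hjlt : j < P := by omega
  have hjr : j ≤ r := by omega
  have hjb : j ≤ b % P := by omega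
  have hjb' : j ≤ b := le_trans hjb (Nat.mod_le _ _)
  have hdvd := h j hjr
  have hC0 : b.choose j ≠ 0 := (Nat.choose_pos hjb').ne'
  have hfac := Nat.factorization_le_factorization_of_dvd_right (a := p) hdvd
    (Nat.choose_pos (by omega : j ≤ a + j)).ne' hC0
  set N := max (Nat.log p (a + j)) (max (Nat.log p b) e) + 1 with hN
  rw [Nat.factorization_choose' hp (b := N) (by omega),
    Nat.factorization_choose hp hjb' (b := N) (by omega)] at hfac
  have hxdvd : P ∣ a + j := by
    have : a + j = P * (a / P + 1) := by omega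
    rw [this]; exact dvd_mul_right _ _
  have hsub : (filter (fun i => p ^ i ≤ j % p ^ i + (b - j) % p ^ i) (Ico 1 N)) ⊂
      (filter (fun i => p ^ i ≤ j % p ^ i + a % p ^ i) (Ico 1 N)) := by
    rw [Finset.ssubset_iff_of_subset]
    · refine ⟨e, ?_, ?_⟩
      · rw [mem_filter, mem_Ico]
        refine ⟨⟨he, by omega⟩, ?_⟩
        rw [← hP, Nat.mod_eq_of_lt hjlt]
        omega
      · rw [mem_filter, not_and]
        intro _
        rw [← hP, Nat.mod_eq_of_lt hjlt]
        have : (b - j) % P = b % P - j := by
          have : b - j = P * (b / P) + (b % P - j) := by omega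
          rw [this, Nat.mul_add_mod, Nat.mod_eq_of_lt (by omega)]
        rw [this]; omega
    · intro i hi
      rw [mem_filter, mem_Ico] at hi ⊢
      obtain ⟨⟨hi1, hi2⟩, hi3⟩ := hi
      refine ⟨⟨hi1, hi2⟩, ?_⟩
      set Q := p ^ i with hQ
      have hQpos : 0 < Q := pow_pos hp.pos i
      rcases le_or_gt i e with hie | hie
      · have hQP : Q ∣ P := pow_dvd_pow p hie
        have hQx : Q ∣ a + j := hQP.trans hxdvd
        have hjQ : 0 < j % Q := by
          by_contra hz
          have hz : j % Q = 0 := by omega
          have := Nat.mod_lt (b - j) hQpos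
          omega
        have h1 : (a % Q + j % Q) % Q = 0 := by
          rw [← Nat.add_mod]; exact Nat.mod_eq_zero_of_dvd hQx
        have h2 := Nat.dvd_of_mod_eq_zero h1
        have h3 := Nat.le_of_dvd (by omega) h2
        omega
      · exfalso
        have hPQ : P ∣ Q := pow_dvd_pow p hie.le
        have hPQle : P < Q := Nat.pow_lt_pow_right hp.one_lt hie
        have hjQ : j % Q = j := Nat.mod_eq_of_lt (by omega)
        have hbQ : b % P ≤ b % Q := by
          have : b % Q % P = b % P := Nat.mod_mod_of_dvd b hPQ
          rw [← this]; exact Nat.mod_le _ _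
        have hbQlt : b % Q < Q := Nat.mod_lt _ hQpos
        have hbdd' : Q * (b / Q) + b % Q = b := Nat.div_add_mod b Q
        have : (b - j) % Q = b % Q - j := by
          have : b - j = Q * (b / Q) + (b % Q - j) := by omega
          rw [this, Nat.mul_add_mod, Nat.mod_eq_of_lt (by omega)]
        rw [hjQ, this] at hi3
        omega
  have := Finset.card_lt_card hsub
  omega

theorem red_of_noCarry {a b r : ℕ} (h : NoCarry a b r) : Red a b r := by
  intro j hj
  rcases lt_or_ge b j with hbj | hjb
  · rw [Nat.choose_eq_zero_of_lt hbj]; exact dvd_zero _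
  have hC0 : b.choose j ≠ 0 := (Nat.choose_pos hjb).ne'
  have hA0 : (a + j).choose j ≠ 0 := (Nat.choose_pos (by omega)).ne'
  rw [← Nat.factorization_prime_le_iff_dvd hA0 hC0]
  intro p hp
  set N := max (Nat.log p (a + j)) (Nat.log p b) + 1 with hN
  rw [Nat.factorization_choose' hp (b := N) (by omega),
    Nat.factorization_choose hp hjb (b := N) (by omega)]
  apply Finset.card_le_card
  intro i hi
  rw [mem_filter, mem_Ico] at hi ⊢
  obtain ⟨⟨hi1, hi2⟩, hi3⟩ := hi
  refine ⟨⟨hi1, hi2⟩, ?_⟩
  set Q := p ^ i with hQ
  have hQpos : 0 < Q := pow_pos hp.pos i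
  have hαlt : a % Q < Q := Nat.mod_lt _ hQpos
  have hβlt : b % Q < Q := Nat.mod_lt _ hQpos
  have hjQlt : j % Q < Q := Nat.mod_lt _ hQpos
  have hadd : Q * (a / Q) + a % Q = a := Nat.div_add_mod a Q
  have hbdd : Q * (b / Q) + b % Q = b := Nat.div_add_mod b Q
  have hjdd : Q * (j / Q) + j % Q = j := Nat.div_add_mod j Q
  have hmulsucc : Q * (a / Q + 1) = Q * (a / Q) + Q := by ring
  have hno := h p i hp (by omega) (by rw [← hQ, hmulsucc]; omega)
  rw [← hQ] at hno
  have hlt : b % Q < j % Q := by omega
  have : (b - j) % Q = b % Q + Q - j % Q := by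
    have hdiv : j / Q < b / Q := by
      by_contra hc
      push Not at hc
      have : Q * (b / Q) ≤ Q * (j / Q) := Nat.mul_le_mul_left _ hc
      omega
    obtain ⟨c, hc⟩ : ∃ c, b / Q = j / Q + 1 + c := ⟨b / Q - j / Q - 1, by omega⟩
    have e1 : Q * (b / Q) = Q * (j / Q) + Q + Q * c := by rw [hc]; ring
    have : b - j = Q * c + (b % Q + Q - j % Q) := by omega
    rw [this, Nat.mul_add_mod, Nat.mod_eq_of_lt (by omega)]
  rw [this]
  omega

theorem red_iff_noCarry {a b r : ℕ} : Red a b r ↔ NoCarry a b r :=
  ⟨noCarry_of_red, red_of_noCarry⟩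

end Pool.Agent.R60.Steiner
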