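import Pool.Agent.R60.Steiner.Large

set_option autoImplicit false

namespace Pool.Agent.R60.Steiner

/-- the prime powers used in the checks -/
def pl : List ℕ :=
  [9, 3, 5, 4, 7, 8, 11, 17, 19, 16, 13, 23, 25, 2, 27, 29, 31, 32, 37, 41, 43]

theorem pl_prime : ∀ P ∈ pl, ∃ p e : ℕ, p.Prime ∧ 0 < e ∧ p ^ e = P := by
  intro P hP
  simp only [pl, List.mem_cons, List.not_mem_nil, or_false] at hP
  rcases hP with h | h | h | h | h | h | h | h | h | h | h | h | h | h | h | h | h | h | h | h | h <;>
    subst h
  · exact ⟨3, 2, by norm_num, by norm_num, by norm_num⟩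
  · exact ⟨3, 1, by norm_num, by norm_num, by norm_num⟩
  · exact ⟨5, 1, by norm_num, by norm_num, by norm_num⟩
  · exact ⟨2, 2, by norm_num, by norm_num, by norm_num⟩
  · exact ⟨7, 1, by norm_num, by norm_num, by norm_num⟩
  · exact ⟨2, 3, by norm_num, by norm_num, by norm_num⟩
  · exact ⟨11, 1, by norm_num, by norm_num, by norm_num⟩
  · exact ⟨17, 1, by norm_num, by norm_num, by norm_num⟩
  · exact ⟨19, 1, by norm_num, by norm_num, by norm_num⟩
  · exact ⟨2, 4, by norm_num, by norm_num, by norm_num⟩
  · exact ⟨13, 1, by norm_num, by norm_num, by norm_num⟩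
  · exact ⟨23, 1, by norm_num, by norm_num, by norm_num⟩
  · exact ⟨5, 2, by norm_num, by norm_num, by norm_num⟩
  · exact ⟨2, 1, by norm_num, by norm_num, by norm_num⟩
  · exact ⟨3, 3, by norm_num, by norm_num, by norm_num⟩
  · exact ⟨29, 1, by norm_num, by norm_num, by norm_num⟩
  · exact ⟨31, 1, by norm_num, by norm_num, by norm_num⟩
  · exact ⟨2, 5, by norm_num, by norm_num, by norm_num⟩
  · exact ⟨37, 1, by norm_num, by norm_num, by norm_num⟩
  · exact ⟨41, 1, by norm_num, by norm_num, by norm_num⟩
  · exact ⟨43, 1, by norm_num, by norm_num, by norm_num⟩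

/-- some prime power of the list `l` has a carry -/
def viol (l : List ℕ) (a M b : ℕ) : Bool :=
  match l with
  | [] => false
  | P :: l => (Nat.ble (P * (a / P + 1)) M && Nat.ble P (a % P + b % P)) || viol l a M b

theorem viol_spec {l : List ℕ} {a M b : ℕ} (h : viol l a M b = true) :
    ∃ P ∈ l, P * (a / P + 1) ≤ M ∧ P ≤ a % P + b % P := by
  induction l with
  | nil => simp [viol] at h
  | cons P l ih =>
    rw [viol, Bool.or_eq_true] at h
    rcases h with h | h
    · rw [Bool.and_eq_true] at h
      exact ⟨P, by simp, Nat.le_of_ble_eq_true h.1, Nat.le_of_ble_eq_true h.2⟩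
    · obtain ⟨Q, h1, h2⟩ := ih h
      exact ⟨Q, by simp [h1], h2⟩

/-- the check for one value of `M` -/
def chk (a M : ℕ) : Bool :=
  Nat.beq ((M - 1) % (a + 1)) a || viol pl a M ((M - 1) * a + (M - 1) % (a + 1))

theorem chk_spec {a M r : ℕ} (h : chk a M = true) (hM : M ≤ r + a)
    (hlt : (M - 1) % (a + 1) < a)
    (hnc : NoCarry a ((M - 1) * a + (M - 1) % (a + 1)) r) : False := by
  rw [chk, Bool.or_eq_true] at h
  rcases h with h | h
  · have := Nat.eq_of_beq_eq_true h
    omega
  · obtain ⟨P, hP, h1, h2⟩ := viol_spec h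
    obtain ⟨p, e, hp, he, rfl⟩ := pl_prime P hP
    have := hnc p e hp he (by omega)
    omega

/-- `f` holds for all `M` with `lo ≤ M < lo + 2 ^ k` -/
def allB (f : ℕ → Bool) : ℕ → ℕ → Bool
  | 0, lo => f lo
  | k + 1, lo => allB f k lo && allB f k (lo + 2 ^ k)

theorem allB_spec {f : ℕ → Bool} {k : ℕ} : ∀ {lo : ℕ}, allB f k lo = true →
    ∀ M, lo ≤ M → M < lo + 2 ^ k → f M = true := by
  induction k with
  | zero =>
    intro lo h M h1 h2
    have : M = lo := by rw [pow_zero] at h2; omega
    rw [this]; exact h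
  | succ k ih =>
    intro lo h M h1 h2
    rw [allB, Bool.and_eq_true] at h
    rcases lt_or_ge M (lo + 2 ^ k) with h3 | h3
    · exact ih h.1 M h1 h3
    · exact ih h.2 M h3 (by rw [pow_succ] at h2; omega)

/-- the check with the exceptions of `a` and the upper bound `u` -/
def good (a u : ℕ) (ex : List ℕ) (M : ℕ) : Bool :=
  Nat.ble M (a + 2) || Nat.blt u M || ex.elem M || chk a M

theorem good_spec {a u : ℕ} {ex : List ℕ} {k M : ℕ} (h : allB (good a u ex) k 0 = true)
    (hu : u < 2 ^ k) (h1 : a + 3 ≤ M) (h2 : M ≤ u) (h3 : M ∉ ex) : chk a M = true := by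
  have := allB_spec h M (by omega) (by omega)
  rw [good, Bool.or_eq_true, Bool.or_eq_true, Bool.or_eq_true] at this
  rcases this with ((h | h) | h) | h
  · have := Nat.le_of_ble_eq_true h; omega
  · have : u < M := by
      rw [Nat.blt_eq] at h; exact h
    omega
  · exact absurd (by simpa using h) h3
  · exact h

theorem g2 : allB (good 2 3 []) 2 0 = true := by decide +kernel
theorem g3 : allB (good 3 8 [6]) 4 0 = true := by decide +kernel
theorem g4 : allB (good 4 15 []) 4 0 = true := by decide +kernel
theorem g5 : allB (good 5 24 []) 5 0 = true := by decide +kernel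
theorem g6 : allB (good 6 35 [10]) 6 0 = true := by decide +kernel
theorem g7 : allB (good 7 60 []) 6 0 = true := by decide +kernel
theorem g8 : allB (good 8 105 [12]) 7 0 = true := by decide +kernel
theorem g9 : allB (good 9 280 [12, 24]) 9 0 = true := by decide +kernel
theorem g10 : allB (good 10 252 []) 8 0 = true := by decide +kernel
theorem g11 : allB (good 11 2520 [15]) 12 0 = true := by decide +kernel
theorem g12 : allB (good 12 2310 []) 12 0 = true := by decide +kernel

end Pool.Agent.R60.Steiner
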