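import Pool.Agent.R60.Steiner.Check

set_option autoImplicit false

namespace Pool.Agent.R60.Steiner

theorem g15 : allB (good 15 24024 []) 15 0 = true := by decide +kernel

end Pool.Agent.R60.Steiner
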