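import Pool.Agent.R60.Steiner.Finite
import Pool.Agent.R60.Steiner.Check2
import Pool.Agent.R60.Steiner.Check3
import Pool.Agent.R60.Steiner.Check4

set_option autoImplicit false
open Finset

namespace Pool.Agent.R60.Steiner

theorem mult_iff {a r P : ℕ} (hP : 0 < P) :
    (∃ c, a < c ∧ c ≤ a + r ∧ P ∣ c) ↔ P * (a / P + 1) ≤ a + r := by
  have hadd : P * (a / P) + a % P = a := Nat.div_add_mod a P
  have hlt : a % P < P := Nat.mod_lt _ hP
  have hmul : P * (a / P + 1) = P * (a / P) + P := by ring
  constructor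
  · rintro ⟨c, h1, h2, d, rfl⟩
    have : a / P + 1 ≤ d := by
      by_contra hc
      push Not at hc
      have : P * d ≤ P * (a / P) := Nat.mul_le_mul_left _ (by omega)
      omega
    exact (Nat.mul_le_mul_left _ this).trans h2
  · intro h
    exact ⟨P * (a / P + 1), by omega, h, dvd_mul_right _ _⟩

theorem carry_iff {a b P : ℕ} (hP : 0 < P) : a % P + b % P < P ↔ a % P ≤ (a + b) % P := by
  constructor
  · intro h
    rw [mod_of_noCarry h]; exact Nat.le_add_right _ _
  · intro h
    by_contra hc
    push Not at hc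
    have h1 : a % P < P := Nat.mod_lt _ hP
    have h2 : b % P < P := Nat.mod_lt _ hP
    have h3 : (a + b) % P = a % P + b % P - P := by
      rw [Nat.add_mod, Nat.mod_eq_sub_mod hc, Nat.mod_eq_of_lt (by omega)]
    omega

theorem criterion {n q r : ℕ} (hrq : r ≤ q) (hqn : q ≤ n) :
    DivCond n q r ↔ ∀ p e : ℕ, p.Prime → 0 < e → (∃ c, q - r < c ∧ c ≤ q ∧ p ^ e ∣ c) →
      (q - r) % p ^ e ≤ (n - r) % p ^ e := by
  rw [divCond_iff_red hrq hqn, red_iff_noCarry]
  have e1 : q = q - r + r := by omega
  have e2 : n - r = (q - r) + (n - q) := by omega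
  constructor
  · intro h p e hp he hc
    have hP : 0 < p ^ e := pow_pos hp.pos e
    rw [e2, ← carry_iff hP]
    apply h p e hp he
    rw [← mult_iff hP]
    obtain ⟨c, h1, h2, h3⟩ := hc
    exact ⟨c, h1, by omega, h3⟩
  · intro h p e hp he hc
    have hP : 0 < p ^ e := pow_pos hp.pos e
    rw [carry_iff hP, ← e2]
    apply h p e hp he
    rw [← mult_iff hP] at hc
    obtain ⟨c, h1, h2, h3⟩ := hc
    exact ⟨c, h1, by omega, h3⟩

theorem large_bound {n q r : ℕ} {B : Finset (Finset (Fin n))} (hB : IsSteiner n q r B)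
    (hr : 1 ≤ r) (hrq : r < q) (hqn : q < n) (hsq : (q - r) ^ 2 ≤ q)
    (hl : (Icc 1 (q - r)).lcm id < (r + 1) * (q - r)) : q * (q - r + 1) ≤ n := by
  by_contra hcon
  push Not at hcon
  have hD := divCond_of_isSteiner (by omega) hB
  rw [divCond_iff_red hrq.le hqn.le] at hD
  have hnc := noCarry_of_red hD
  have hT := tits hB hr hrq.le hqn
  obtain ⟨a, rfl⟩ : ∃ a, q = r + a := ⟨q - r, by omega⟩
  obtain ⟨b, rfl⟩ : ∃ b, n = r + a + b := ⟨n - (r + a), by omega⟩
  have e1 : r + a - r = a := by omega
  have e2 : r + a + b - (r + a) = b := by omega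
  rw [e1] at hsq hl hcon hT
  rw [e1, e2] at hnc
  have ha : 1 ≤ a := by omega
  have hM1 : (a + b) / a ≤ r + a := by
    have h1 : a + b < a * (r + a + 1) := by
      have : (r + a) * (a + 1) = a * (r + a + 1) + r := by ring
      omega
    have := Nat.div_lt_of_lt_mul h1
    omega
  have hM2 : r + 1 ≤ (a + b) / a := by
    rw [Nat.le_div_iff_mul_le (by omega)]
    have : (r + 1) * (a + 1) = (r + 1) * a + (r + 1) := by ring
    omega
  have h1 := large ha hnc hM1 (by omega) hsq
  have h2 : (r + 1) * a ≤ (a + b) / a * a := Nat.mul_le_mul_right _ hM2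
  omega

/-- the exceptional parameters -/
def exceptions : List (ℕ × ℕ × ℕ) :=
  [(22, 6, 3), (23, 7, 4), (24, 8, 5), (66, 10, 4), (67, 11, 5), (68, 12, 6), (69, 13, 7),
   (70, 14, 8), (71, 15, 9), (102, 12, 4), (112, 12, 3), (171, 15, 4), (234, 24, 15),
   (235, 25, 16), (236, 26, 17), (326, 20, 4)]

theorem small_bound {n q r : ℕ} {B : Finset (Finset (Fin n))} (hB : IsSteiner n q r B)
    (hr : 2 ≤ r) (hrq : r + 2 ≤ q) (hqn : q < n) (hle : q - r ≤ 16) :
    q * (q - r + 1) ≤ n ∨ (n, q, r) ∈ exceptions := by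
  by_contra hcon
  rw [not_or] at hcon
  obtain ⟨hcon, hex⟩ := hcon
  push Not at hcon
  have hD := divCond_of_isSteiner (by omega) hB
  rw [divCond_iff_red (by omega) hqn.le] at hD
  have hnc := noCarry_of_red hD
  have hT := tits hB (by omega) (by omega) hqn
  have hF := fisher hB hr (by omega) hqn
  have hd := hD 1 (by omega)
  rw [Nat.choose_one_right, Nat.choose_one_right] at hd
  obtain ⟨a, rfl⟩ : ∃ a, q = r + a := ⟨q - r, by omega⟩
  obtain ⟨b, rfl⟩ : ∃ b, n = r + a + b := ⟨n - (r + a), by omega⟩
  have e1 : r + a - r = a := by omega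
  have e2 : r + a + b - (r + a) = b := by omega
  rw [e1] at hle hcon hT hF
  rw [e1, e2] at hnc hd
  have hlt : a + b < a * (r + a + 1) := by
    have : (r + a) * (a + 1) = a * (r + a + 1) + r := by ring
    omega
  have hT' : a * (r + 1) + 1 ≤ a + b := by
    have : (r + 1) * (a + 1) = a * (r + 1) + (r + 1) := by ring
    omega
  have hF' : a ^ 2 + 3 * a + 1 ≤ a + b := by
    have : (a + 1) * (a + 2) = a ^ 2 + 3 * a + 2 := by ring
    omega
  clear hcon hT hF hD hB
  have ha2 : 2 ≤ a := by omega
  have hcases : a = 2 ∨ a = 3 ∨ a = 4 ∨ a = 5 ∨ a = 6 ∨ a = 7 ∨ a = 8 ∨ a = 9 ∨ a = 10 ∨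
      a = 11 ∨ a = 12 ∨ a = 13 ∨ a = 14 ∨ a = 15 ∨ a = 16 := by omega
  rcases hcases with h | h | h | h | h | h | h | h | h | h | h | h | h | h | h <;> subst h
  · obtain ⟨M, hM, _⟩ := finite_case (L := 2) ha2 g2 (by norm_num) (by norm_num) (by decide)
      (by norm_num) hnc hd hT' hF' hlt
    simp at hM
  · obtain ⟨M, hM, h1, h2, h3⟩ := finite_case (L := 6) ha2 g3 (by norm_num) (by norm_num)
      (by decide) (by norm_num) hnc hd hT' hF' hlt
    simp only [List.mem_singleton] at hM
    subst hM
    norm_num at h1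
    obtain rfl : b = 16 := by omega
    clear hnc hd hT' hF' hlt h1 ha2 hle
    have hr1 : 3 ≤ r := by omega
    have hr2 : r ≤ 5 := by omega
    clear h2 h3 hr
    interval_cases r <;> simp [exceptions] at hex
  · obtain ⟨M, hM, _⟩ := finite_case (L := 12) ha2 g4 (by norm_num) (by norm_num) (by decide)
      (by norm_num) hnc hd hT' hF' hlt
    simp at hM
  · obtain ⟨M, hM, _⟩ := finite_case (L := 60) ha2 g5 (by norm_num) (by norm_num) (by decide)
      (by norm_num) hnc hd hT' hF' hlt
    simp at hM
  · obtain ⟨M, hM, h1, h2, h3⟩ := finite_case (L := 60) ha2 g6 (by norm_num) (by norm_num)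
      (by decide) (by norm_num) hnc hd hT' hF' hlt
    simp only [List.mem_singleton] at hM
    subst hM
    norm_num at h1
    obtain rfl : b = 56 := by omega
    clear hnc hd hT' hF' hlt h1 ha2 hle
    have hr1 : 4 ≤ r := by omega
    have hr2 : r ≤ 9 := by omega
    clear h2 h3 hr
    interval_cases r <;> simp [exceptions] at hex
  · obtain ⟨M, hM, _⟩ := finite_case (L := 420) ha2 g7 (by norm_num) (by norm_num) (by decide)
      (by norm_num) hnc hd hT' hF' hlt
    simp at hM
  · obtain ⟨M, hM, h1, h2, h3⟩ := finite_case (L := 840) ha2 g8 (by norm_num) (by norm_num)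
      (by decide) (by norm_num) hnc hd hT' hF' hlt
    simp only [List.mem_singleton] at hM
    subst hM
    norm_num at h1
    obtain rfl : b = 90 := by omega
    have := exc_cut 13 1 (by norm_num) one_pos (pow_one _) hnc (by norm_num)
    norm_num at this
    clear hnc hd hT' hF' hlt h1 ha2 hle
    have hr1 : 4 ≤ r := by omega
    have hr2 : r ≤ 4 := by omega
    clear h2 h3 hr this
    interval_cases r <;> simp [exceptions] at hex
  · obtain ⟨M, hM, h1, h2, h3⟩ := finite_case (L := 2520) ha2 g9 (by norm_num) (by norm_num)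
      (by decide) (by norm_num) hnc hd hT' hF' hlt
    simp only [List.mem_cons, List.not_mem_nil, or_false] at hM
    rcases hM with hM | hM
    · subst hM
      norm_num at h1
      obtain rfl : b = 100 := by omega
      have := exc_cut 13 1 (by norm_num) one_pos (pow_one _) hnc (by norm_num)
      norm_num at this
      clear hnc hd hT' hF' hlt h1 ha2 hle
      have hr1 : 3 ≤ r := by omega
      have hr2 : r ≤ 3 := by omega
      clear h2 h3 hr this
      interval_cases r <;> simp [exceptions] at hex
    · subst hM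
      norm_num at h1
      obtain rfl : b = 210 := by omega
      have := exc_cut (P := 27) 3 3 (by norm_num) (by norm_num) (by norm_num) hnc (by norm_num)
      norm_num at this
      clear hnc hd hT' hF' hlt h1 ha2 hle
      have hr1 : 15 ≤ r := by omega
      have hr2 : r ≤ 17 := by omega
      clear h2 h3 hr this
      interval_cases r <;> simp [exceptions] at hex
  · obtain ⟨M, hM, _⟩ := finite_case (L := 2520) ha2 g10 (by norm_num) (by norm_num) (by decide)
      (by norm_num) hnc hd hT' hF' hlt
    simp at hM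
  · obtain ⟨M, hM, h1, h2, h3⟩ := finite_case (L := 27720) ha2 g11 (by norm_num) (by norm_num)
      (by decide) (by norm_num) hnc hd hT' hF' hlt
    simp only [List.mem_singleton] at hM
    subst hM
    norm_num at h1
    obtain rfl : b = 156 := by omega
    have := exc_cut (P := 16) 2 4 (by norm_num) (by norm_num) (by norm_num) hnc (by norm_num)
    norm_num at this
    clear hnc hd hT' hF' hlt h1 ha2 hle
    have hr1 : 4 ≤ r := by omega
    have hr2 : r ≤ 4 := by omega
    clear h2 h3 hr this
    interval_cases r <;> simp [exceptions] at hex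
  · obtain ⟨M, hM, _⟩ := finite_case (L := 27720) ha2 g12 (by norm_num) (by norm_num)
      (by decide) (by norm_num) hnc hd hT' hF' hlt
    simp at hM
  · obtain ⟨M, hM, _⟩ := finite_case (L := 360360) ha2 g13 (by norm_num) (by norm_num)
      (by decide) (by norm_num) hnc hd hT' hF' hlt
    simp at hM
  · obtain ⟨M, hM, _⟩ := finite_case (L := 360360) ha2 g14 (by norm_num) (by norm_num)
      (by decide) (by norm_num) hnc hd hT' hF' hlt
    simp at hM
  · obtain ⟨M, hM, _⟩ := finite_case (L := 360360) ha2 g15 (by norm_num) (by norm_num)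
      (by decide) (by norm_num) hnc hd hT' hF' hlt
    simp at hM
  · obtain ⟨M, hM, h1, h2, h3⟩ := finite_case (L := 720720) ha2 g16 (by norm_num) (by norm_num)
      (by decide) (by norm_num) hnc hd hT' hF' hlt
    simp only [List.mem_singleton] at hM
    subst hM
    norm_num at h1
    obtain rfl : b = 306 := by omega
    have := exc_cut 7 1 (by norm_num) one_pos (pow_one _) hnc (by norm_num)
    norm_num at this
    clear hnc hd hT' hF' hlt h1 ha2 hle
    have hr1 : 4 ≤ r := by omega
    have hr2 : r ≤ 4 := by omega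
    clear h2 h3 hr this
    interval_cases r <;> simp [exceptions] at hex

end Pool.Agent.R60.Steiner
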