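import Pool.Agent.R60.Steiner.Check

set_option autoImplicit false
open Finset

namespace Pool.Agent.R60.Steiner

theorem finite_case {a u L k : ℕ} {ex : List ℕ} (ha : 2 ≤ a)
    (hchk : allB (good a u ex) k 0 = true) (hu : u < 2 ^ k) (hu2 : a ^ 2 ≤ u + 1)
    (hL : (Icc 1 a).lcm id = L) (hLu : L < (u + 1) * a) {b r : ℕ} (hnc : NoCarry a b r)
    (hdvd : a + 1 ∣ b) (hT : a * (r + 1) + 1 ≤ a + b) (hF : a ^ 2 + 3 * a + 1 ≤ a + b)
    (hlt : a + b < a * (r + a + 1)) :
    ∃ M ∈ ex, a + b = M * a + (M - 1) % (a + 1) ∧ M ≤ r + a ∧ r + 1 ≤ M := by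
  set M := (a + b) / a with hMdef
  have hdm : a * M + (a + b) % a = a + b := Nat.div_add_mod _ _
  have hh : (a + b) % a < a := Nat.mod_lt _ (by omega)
  have hM1 : M ≤ r + a := by
    have : M < r + a + 1 := Nat.div_lt_of_lt_mul hlt
    omega
  have hM2 : r + 1 ≤ M := by
    rw [hMdef, Nat.le_div_iff_mul_le (by omega)]
    calc (r + 1) * a = a * (r + 1) := by ring
      _ ≤ a + b := by omega
  have hM3 : a + 3 ≤ M := by
    rw [hMdef, Nat.le_div_iff_mul_le (by omega)]
    calc (a + 3) * a = a ^ 2 + 3 * a := by ring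
      _ ≤ a + b := by omega
  obtain ⟨N, hN⟩ : ∃ N, M = N + 1 := ⟨M - 1, by omega⟩
  have hb : b = N * a + (a + b) % a := by
    have : a * M = N * a + a := by rw [hN]; ring
    omega
  have hmod : (a + b) % a = N % (a + 1) := by
    have h1 : (N + b) % (a + 1) = N % (a + 1) := by
      obtain ⟨c, hc⟩ := hdvd
      rw [hc, Nat.add_mul_mod_self_left]
    have h2 : (N + b) % (a + 1) = (a + b) % a := by
      have : N + b = (a + 1) * N + (a + b) % a := by
        calc N + b = N + (N * a + (a + b) % a) := by rw [← hb]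
          _ = (a + 1) * N + (a + b) % a := by ring
      rw [this, Nat.mul_add_mod, Nat.mod_eq_of_lt (by omega)]
    rw [← h2, h1]
  have hMu : M ≤ u := by
    by_contra hc
    push Not at hc
    have h1 := large (by omega : 1 ≤ a) hnc hM1 (by omega : 0 < M) (by omega)
    rw [hL, ← hMdef] at h1
    have : (u + 1) * a ≤ M * a := Nat.mul_le_mul_right _ hc
    omega
  have hN1 : M - 1 = N := by omega
  refine ⟨M, ?_, ?_, hM1, hM2⟩
  · by_contra hex
    have h1 := good_spec hchk hu hM3 hMu hex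
    apply chk_spec h1 hM1
    · rw [hN1, ← hmod]; exact hh
    · rw [hN1, ← hmod, ← hb]; exact hnc
  · rw [hN1, ← hmod]
    rw [mul_comm]; exact hdm.symm

theorem exc_cut {a b r P : ℕ} (p e : ℕ) (hp : p.Prime) (he : 0 < e) (hP : p ^ e = P)
    (hnc : NoCarry a b r) (h : P ≤ a % P + b % P) : a + r < P * (a / P + 1) := by
  subst hP
  by_contra hc
  push Not at hc
  exact absurd (hnc p e hp he hc) (by omega)

end Pool.Agent.R60.Steiner
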