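import Pool.Agent.R60.Steiner.Equality

set_option autoImplicit false
open Finset

namespace Pool.Agent.R60.Steiner

theorem pow_le_of_dvd {a b r p k : ℕ} (ha : 1 ≤ a) (hnc : NoCarry a b r)
    (hM : (a + b) / a ≤ r + a) (hMpos : 0 < (a + b) / a) (hsq : a ^ 2 ≤ r + a)
    (hp : p.Prime) (hk : p ^ k ∣ (a + b) / a * a) : p ^ k ≤ a := by
  by_contra hcon
  push Not at hcon
  have hexi : ∃ i, a < p ^ i := ⟨k, hcon⟩
  classical
  set i := Nat.find hexi with hi
  have hi1 : a < p ^ i := Nat.find_spec hexi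
  have hik : i ≤ k := Nat.find_min' hexi hcon
  have hipos : 0 < i := by
    rcases Nat.eq_zero_or_pos i with h0 | h
    · rw [h0, pow_zero] at hi1; omega
    · exact h
  have hprev : p ^ (i - 1) ≤ a := by
    have := Nat.find_min hexi (m := i - 1) (by omega)
    omega
  have hdvd : p ^ i ∣ (a + b) / a * a := (pow_dvd_pow p hik).trans hk
  have hle : p ^ i ≤ r + a := by
    rcases le_or_gt p a with hpa | hpa
    · calc p ^ i = p ^ (i - 1) * p := by rw [← pow_succ]; congr 1; omega
        _ ≤ a * a := Nat.mul_le_mul hprev hpa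
        _ = a ^ 2 := by ring
        _ ≤ r + a := hsq
    · have hi1' : i = 1 := by
        have : i ≤ 1 := Nat.find_min' hexi (by rw [pow_one]; exact hpa)
        omega
      rw [hi1', pow_one] at hdvd ⊢
      rcases (hp.dvd_mul).1 hdvd with h | h
      · exact (Nat.le_of_dvd hMpos h).trans hM
      · exact absurd (Nat.le_of_dvd (by omega) h) (by omega)
  have h1 := hnc p i hp hipos (by rw [Nat.div_eq_of_lt hi1]; omega)
  have h2 := mod_of_noCarry h1
  rw [Nat.mod_eq_of_lt hi1] at h2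
  obtain ⟨c, hc⟩ := hdvd
  have h3 : a + b = p ^ i * c + (a + b) % a := by
    rw [← hc, mul_comm]; exact (Nat.div_add_mod _ _).symm
  have h4 : (a + b) % a < a := Nat.mod_lt _ (by omega)
  have h5 : (a + b) % p ^ i = (a + b) % a := by
    conv_lhs => rw [h3]
    rw [Nat.mul_add_mod, Nat.mod_eq_of_lt (by omega : (a + b) % a < p ^ i)]
  have h6 : a ≤ (a + b) % p ^ i := by rw [h2]; exact Nat.le_add_right _ _
  rw [h5] at h6
  exact absurd h6 (by omega)

/-- If `a` is small compared with `r`, then `m = a + b` is at least `a (r + a + 1)`. -/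
theorem large {a b r : ℕ} (ha : 1 ≤ a) (hnc : NoCarry a b r)
    (hM : (a + b) / a ≤ r + a) (hMpos : 0 < (a + b) / a) (hsq : a ^ 2 ≤ r + a) :
    (a + b) / a * a ≤ (Icc 1 a).lcm id := by
  apply Nat.le_of_dvd
  · rw [Nat.pos_iff_ne_zero]
    intro h0
    rw [Finset.lcm_eq_zero_iff] at h0
    obtain ⟨x, hx, hx0⟩ := h0
    rw [mem_Icc] at hx
    simp only [id] at hx0
    omega
  · rw [Nat.dvd_iff_prime_pow_dvd_dvd]
    intro p k hp hk
    have h1 := pow_le_of_dvd ha hnc hM hMpos hsq hp hk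
    have h2 : id (p ^ k) ∣ (Icc 1 a).lcm id :=
      dvd_lcm (mem_Icc.2 ⟨Nat.one_le_pow _ _ hp.pos, h1⟩)
    exact h2

end Pool.Agent.R60.Steiner
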